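import Pool.Agent.helper68.FY.Spec

/-! Row `fy:INA`: one step for integral relations (hypothesis `CS`). -/

set_option autoImplicit false

namespace Pool.Agent.helper68.FY

open Finset

/-- the matrix of `φ ↦ φ ∘ g` -/
def INA_M (g : V4) : Fin 3 → Fin 3 → ℤ :=
  ![![g 0 ^ 2, g 0 * g 2, g 2 ^ 2],
    ![2 * (g 0 * g 1), g 0 * g 3 + g 1 * g 2, 2 * (g 2 * g 3)],
    ![g 1 ^ 2, g 1 * g 3, g 3 ^ 2]]

theorem INA_cp (φ : V3) (g : V4) (i : Fin 3) :
    cp φ g i = ∑ k, INA_M g i k * φ k := by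
  fin_cases i <;> simp [cp, INA_M, Fin.sum_univ_three] <;> ring

theorem INA_par_cp {φ ψ : V3} (h : par φ ψ) (g : V4) : par (cp φ g) (cp ψ g) := by
  intro i j
  rw [INA_cp, INA_cp, INA_cp, INA_cp, Finset.sum_mul_sum, Finset.sum_mul_sum, Finset.sum_comm]
  refine Finset.sum_congr rfl fun k _ => Finset.sum_congr rfl fun l _ => ?_
  have := h l k
  linear_combination (INA_M g i l * INA_M g j k) * this

theorem INA_par_symm {φ ψ : V3} (h : par φ ψ) : par ψ φ := by
  intro i j
  have := h i j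
  linear_combination (-1 : ℤ) * this

theorem INA_par_trans {a b c : V3} (h1 : par a b) (h2 : par b c) (hb : b ≠ 0) : par a c := by
  obtain ⟨k, hk⟩ : ∃ k, b k ≠ 0 := by
    by_contra hcon
    push Not at hcon
    exact hb (funext hcon)
  intro i j
  have e : (b k) ^ 2 * (a i * c j) = (b k) ^ 2 * (a j * c i) := by
    have h1i := h1 i k
    have h1j := h1 j k
    have h2i := h2 i k
    have h2j := h2 j k
    -- a i * b k = a k * b i, b j * c k = b k * c j
    linear_combination (b k * c j) * h1i - (b k * c i) * h1j - (a k * b i) * h2j +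
      (a k * b j) * h2i
  exact mul_left_cancel₀ (pow_ne_zero 2 hk) e

theorem INA_par_smul {a b : V3} {t : ℤ} (ht : t ≠ 0) (h : par (t • a) b) : par a b := by
  intro i j
  have := h i j
  simp only [Pi.smul_apply, smul_eq_mul] at this
  refine mul_left_cancel₀ ht ?_
  linear_combination this

theorem INA_smul_par {a b : V3} (t : ℤ) (h : par a b) : par (t • a) b := by
  intro i j
  have := h i j
  simp only [Pi.smul_apply, smul_eq_mul]
  linear_combination t * this

theorem INA_ds_cp (φ : V3) (g : V4) : ds (cp φ g) = dt g ^ 2 * ds φ := by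
  simp [ds, cp, dt]
  ring

theorem INA_ne {φ : V3} (h : ds φ ≠ 0) : φ ≠ 0 := by
  rintro rfl
  exact h (by simp [ds])

theorem INA_cp_ne {φ : V3} {g : V4} (h : ds φ ≠ 0) (hg : dt g ≠ 0) : cp φ g ≠ 0 := by
  apply INA_ne
  rw [INA_ds_cp]
  exact mul_ne_zero (pow_ne_zero 2 hg) h

theorem INA_cp_adj (φ : V3) (g : V4) :
    cp (cp φ g) ![g 3, -g 1, -g 2, g 0] = (dt g ^ 2) • φ := by
  funext i
  fin_cases i <;> simp [cp, dt] <;> ring

theorem INA_cp_am (φ : V3) (h g : V4) :
    cp (cp φ h) (am h g) = (dt h ^ 2) • cp φ g := by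
  funext i
  fin_cases i <;> simp [cp, dt, am] <;> ring

theorem INA_cp_smul (φ : V3) (t : ℤ) (g : V4) : cp φ (t • g) = (t ^ 2) • cp φ g := by
  funext i
  fin_cases i <;> simp [cp] <;> ring

theorem INA_dt {G : ℕ} {g : V4} (h : g ∈ PB G) : dt g ≠ 0 := by
  classical
  unfold PB at h
  simp only [Finset.mem_filter] at h
  exact h.2.1

theorem INA (h : CS_stmt) : INA_stmt := by
  intro X S φ κ G D s hG hD hds hκ hs
  refine h X S (fun g x y => par (cp (φ y) g) (φ x)) κ G D s hG hD ?_ ?_ ?_ hs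
  · intro g hg x hx T hT hy
    rcases T.eq_empty_or_nonempty with rfl | ⟨y₀, hy₀⟩
    · simp
    · refine hκ y₀ (hT hy₀) T hT fun y hyT => ?_
      have h1 : par (cp (φ y₀) g) (cp (φ y) g) :=
        INA_par_trans (hy y₀ hy₀) (INA_par_symm (hy y hyT)) (INA_ne (hds x hx))
      have h2 := INA_par_cp h1 ![g 3, -g 1, -g 2, g 0]
      rw [INA_cp_adj, INA_cp_adj] at h2
      have hd : dt g ^ 2 ≠ 0 := pow_ne_zero 2 (INA_dt hg)
      exact INA_par_symm (INA_par_smul hd (INA_par_symm (INA_par_smul hd h2)))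
  · intro g hg h' hh x hx y hy z hz h1 h2
    have h3 := INA_par_cp h2 (am h' g)
    rw [INA_cp_am] at h3
    have hd : dt h' ^ 2 ≠ 0 := pow_ne_zero 2 (INA_dt hh)
    have h4 : par (cp (φ z) g) (cp (φ y) (am h' g)) := INA_par_smul hd h3
    exact INA_par_trans (INA_par_symm h4) h1 (INA_cp_ne (hds z hz) (INA_dt hg))
  · intro k t _ ht _ x _ y _ h1
    have h1' : par (cp (φ y) (t • k)) (φ x) := h1
    rw [INA_cp_smul] at h1'
    exact INA_par_smul (pow_ne_zero 2 ht) h1'

end Pool.Agent.helper68.FY
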